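import Mathlib

/-! Definitions for measures and continuous outer measures on Boolean algebras. -/

set_option autoImplicit false

open Filter Topology

namespace Pool.Agent.T6helper6.MB

universe u

/-- The countable chain condition: every family of pairwise disjoint nonzero elements is
countable. -/
def CCC (B : Type u) [BooleanAlgebra B] : Prop :=
  ∀ D : Set B, (∀ a ∈ D, a ≠ ⊥) → (∀ a ∈ D, ∀ b ∈ D, a ≠ b → Disjoint a b) → D.Countable

/-- `μ` is a measure on the Boolean algebra `A`: it has values in `[0, ∞)`, is strictly positive,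
and is countably additive for all sequences of pairwise disjoint elements whose supremum exists
in `A`. -/
structure IsMeasure {A : Type u} [BooleanAlgebra A] (μ : A → ℝ) : Prop where
  nonneg : ∀ a, 0 ≤ μ a
  pos : ∀ a, a ≠ ⊥ → 0 < μ a
  add : ∀ (a : ℕ → A) (b : A), (∀ i j, i ≠ j → Disjoint (a i) (a j)) →
    IsLUB (Set.range a) b → HasSum (fun n => μ (a n)) (μ b)

/-- `m` is a continuous outer measure on the Boolean algebra `B`. -/
structure IsContOuter {B : Type u} [BooleanAlgebra B] (m : B → ℝ) : Prop where
  nonneg : ∀ a, 0 ≤ m a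
  bot : m ⊥ = 0
  pos : ∀ a, a ≠ ⊥ → 0 < m a
  mono : ∀ a b, a ≤ b → m a ≤ m b
  sup_le : ∀ a b, m (a ⊔ b) ≤ m a + m b
  cont : ∀ a : ℕ → B, Antitone a → IsGLB (Set.range a) ⊥ →
    Tendsto (fun n => m (a n)) atTop (𝓝 0)

/-- A complete subalgebra: a Boolean subalgebra closed under all suprema and infima. -/
def IsCompleteSub {B : Type u} [CompleteBooleanAlgebra B] (S : BooleanSubalgebra B) : Prop :=
  ∀ T : Set B, T ⊆ (S : Set B) → sSup T ∈ S ∧ sInf T ∈ S

/-- `S` is countably generated: it is the smallest complete subalgebra containing some countable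
set. -/
def CountablyGenerated {B : Type u} [CompleteBooleanAlgebra B] (S : BooleanSubalgebra B) : Prop :=
  IsCompleteSub S ∧ ∃ C : Set B, C.Countable ∧ C ⊆ (S : Set B) ∧
    ∀ S' : BooleanSubalgebra B, IsCompleteSub S' → C ⊆ (S' : Set B) → S ≤ S'

end Pool.Agent.T6helper6.MB
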