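import Pool.Agent.T6helper6.MB.Defs

set_option autoImplicit false

open Filter Topology

namespace Pool.Agent.T6helper6.MB

universe u

variable {B : Type u} [CompleteBooleanAlgebra B]

/-! ### generated complete subalgebras -/

/-- the complete subalgebra generated by `C` -/
def gen (C : Set B) : BooleanSubalgebra B :=
  sInf {S : BooleanSubalgebra B | IsCompleteSub S ∧ C ⊆ (S : Set B)}

theorem subset_gen (C : Set B) : C ⊆ (gen C : Set B) := by
  intro x hx
  show x ∈ sInf {S : BooleanSubalgebra B | IsCompleteSub S ∧ C ⊆ (S : Set B)}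
  rw [BooleanSubalgebra.mem_sInf]
  exact fun S hS => hS.2 hx

theorem gen_le {C : Set B} {S : BooleanSubalgebra B} (h : IsCompleteSub S)
    (hC : C ⊆ (S : Set B)) : gen C ≤ S := sInf_le ⟨h, hC⟩

theorem gen_complete (C : Set B) : IsCompleteSub (gen C) := by
  intro T hT
  constructor
  · show _ ∈ sInf {S : BooleanSubalgebra B | IsCompleteSub S ∧ C ⊆ (S : Set B)}
    rw [BooleanSubalgebra.mem_sInf]
    intro S hS
    exact (hS.1 T (fun x hx => gen_le hS.1 hS.2 (hT hx))).1
  · show _ ∈ sInf {S : BooleanSubalgebra B | IsCompleteSub S ∧ C ⊆ (S : Set B)}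
    rw [BooleanSubalgebra.mem_sInf]
    intro S hS
    exact (hS.1 T (fun x hx => gen_le hS.1 hS.2 (hT hx))).2

theorem gen_cg {C : Set B} (hC : C.Countable) : CountablyGenerated (gen C) :=
  ⟨gen_complete C, C, hC, subset_gen C, fun _ h1 h2 => gen_le h1 h2⟩

/-! ### measures on subalgebras, as functions on the whole algebra -/

/-- `f` restricts to a measure on `S` -/
structure MeasOn (S : BooleanSubalgebra B) (f : B → ℝ) : Prop where
  nonneg : ∀ a ∈ S, 0 ≤ f a
  pos : ∀ a ∈ S, a ≠ ⊥ → 0 < f a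
  add : ∀ a : ℕ → B, (∀ n, a n ∈ S) → (∀ i j, i ≠ j → Disjoint (a i) (a j)) →
    HasSum (fun n => f (a n)) (f (⨆ n, a n))

theorem MeasOn.mono_sub {S S' : BooleanSubalgebra B} {f : B → ℝ} (h : MeasOn S f)
    (hle : S' ≤ S) : MeasOn S' f :=
  ⟨fun a ha => h.nonneg a (hle ha), fun a ha => h.pos a (hle ha),
    fun a ha => h.add a (fun n => hle (ha n))⟩

theorem iSup_mem {S : BooleanSubalgebra B} (hS : IsCompleteSub S) {a : ℕ → B}
    (ha : ∀ n, a n ∈ S) : (⨆ n, a n) ∈ S :=
  (hS (Set.range a) (by rintro _ ⟨n, rfl⟩; exact ha n)).1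

theorem iInf_mem {S : BooleanSubalgebra B} (hS : IsCompleteSub S) {a : ℕ → B}
    (ha : ∀ n, a n ∈ S) : (⨅ n, a n) ∈ S :=
  (hS (Set.range a) (by rintro _ ⟨n, rfl⟩; exact ha n)).2

open Classical in
theorem measOn_of_isMeasure {S : BooleanSubalgebra B} (hS : IsCompleteSub S) {μ : S → ℝ}
    (h : IsMeasure μ) : MeasOn S (fun b => if hb : b ∈ S then μ ⟨b, hb⟩ else 0) := by
  refine ⟨?_, ?_, ?_⟩
  · intro a ha
    simp only [ha, dif_pos]
    exact h.nonneg _
  · intro a ha hne
    simp only [ha, dif_pos]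
    refine h.pos _ (fun h0 => hne ?_)
    exact congrArg Subtype.val h0
  · intro a ha hd
    have h1 := iSup_mem hS ha
    simp only [ha, h1, dif_pos]
    refine h.add (fun n => ⟨a n, ha n⟩) ⟨⨆ n, a n, h1⟩ ?_ ?_
    · intro i j hij
      have h2 := hd i j hij
      rw [disjoint_iff] at h2 ⊢
      exact Subtype.ext h2
    · constructor
      · rintro _ ⟨n, rfl⟩
        exact le_iSup a n
      · intro x hx
        have : (⨆ n, a n) ≤ (x : B) := iSup_le fun n => hx ⟨n, rfl⟩
        exact this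

namespace MeasOn

variable {S : BooleanSubalgebra B} {f : B → ℝ}

theorem bot (h : MeasOn S f) : f ⊥ = 0 := by
  have h1 := h.add (fun _ => ⊥) (fun _ => BooleanSubalgebra.bot_mem) (fun _ _ _ => disjoint_bot_left)
  have h2 := h1.summable
  rwa [summable_const_iff] at h2

theorem add2 (h : MeasOn S f) {a b : B} (ha : a ∈ S) (hb : b ∈ S) (hab : Disjoint a b) :
    f (a ⊔ b) = f a + f b := by
  let s : ℕ → B := fun n => if n = 0 then a else if n = 1 then b else ⊥
  have hs : ∀ n, s n ∈ S := by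
    intro n
    simp only [s]
    split_ifs
    · exact ha
    · exact hb
    · exact BooleanSubalgebra.bot_mem
  have hd : ∀ i j, i ≠ j → Disjoint (s i) (s j) := by
    intro i j hij
    simp only [s]
    split_ifs <;> first
      | omega
      | exact hab
      | exact hab.symm
      | exact disjoint_bot_left
      | exact disjoint_bot_right
  have h1 := h.add s hs hd
  have h2 : (⨆ n, s n) = a ⊔ b := by
    apply le_antisymm
    · refine iSup_le fun n => ?_
      simp only [s]
      split_ifs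
      · exact le_sup_left
      · exact le_sup_right
      · exact bot_le
    · exact sup_le (le_iSup s 0) (le_iSup s 1)
  rw [h2] at h1
  have h3 : HasSum (fun n => f (s n)) (∑ n ∈ Finset.range 2, f (s n)) := by
    apply hasSum_sum_of_ne_finset_zero
    intro n hn
    have : ¬ n < 2 := by simpa using hn
    have h4 : s n = ⊥ := by
      simp only [s]
      rw [if_neg (by omega), if_neg (by omega)]
    rw [h4, h.bot]
  have h5 := h1.unique h3
  rw [h5]
  simp [Finset.sum_range_succ, s]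

theorem mono (h : MeasOn S f) {a b : B} (ha : a ∈ S) (hb : b ∈ S) (hab : a ≤ b) :
    f a ≤ f b := by
  have h1 : a ⊔ b \ a = b := sup_sdiff_cancel_right hab
  have h2 := h.add2 ha (BooleanSubalgebra.sdiff_mem hb ha) disjoint_sdiff_self_right
  rw [h1] at h2
  have := h.nonneg _ (BooleanSubalgebra.sdiff_mem hb ha)
  linarith

theorem disjointed_mem {x : ℕ → B} (hx : ∀ n, x n ∈ S) (n : ℕ) : disjointed x n ∈ S :=
  disjointedRec (p := fun b => b ∈ S) (fun _ i ht => BooleanSubalgebra.sdiff_mem ht (hx i)) (hx n)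

theorem csub (h : MeasOn S f) {x : ℕ → B} (hx : ∀ n, x n ∈ S) {s : ℝ}
    (hs : ∀ n, ∑ k ∈ Finset.range n, f (x k) ≤ s) : f (⨆ n, x n) ≤ s := by
  have h1 := h.add (disjointed x) (disjointed_mem hx) (fun i j hij => disjoint_disjointed x hij)
  rw [iSup_disjointed] at h1
  refine le_of_tendsto' h1.tendsto_sum_nat (fun n => le_trans ?_ (hs n))
  exact Finset.sum_le_sum fun k _ => h.mono (disjointed_mem hx k) (hx k) (disjointed_le x k)

theorem cont (h : MeasOn S f) {a : ℕ → B} (ha : ∀ n, a n ∈ S) (hanti : Antitone a)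
    (hinf : (⨅ n, a n) = ⊥) : Tendsto (fun n => f (a n)) atTop (𝓝 0) := by
  let c : ℕ → B := fun n => a 0 \ a n
  have hc : ∀ n, c n ∈ S := fun n => BooleanSubalgebra.sdiff_mem (ha 0) (ha n)
  have hcm : Monotone c := fun i j hij => sdiff_le_sdiff_left (hanti hij)
  have hsup : (⨆ n, c n) = a 0 := by
    have h1 : (⨆ n, c n) = a 0 \ (⨅ n, a n) := by
      simp only [c, sdiff_eq]
      rw [← inf_iSup_eq, compl_iInf]
    rw [h1, hinf, sdiff_bot]
  have h1 := h.add (disjointed c) (disjointed_mem hc) (fun i j hij => disjoint_disjointed c hij)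
  rw [iSup_disjointed, hsup] at h1
  have h2 := h1.tendsto_sum_nat
  have h3 : ∀ n, ∑ k ∈ Finset.range (n + 1), f (disjointed c k) = f (c n) := by
    intro n
    induction n with
    | zero => simp [disjointed_zero]
    | succ n ih =>
      rw [Finset.sum_range_succ, ih]
      have h4 : disjointed c (n + 1) = c (n + 1) \ c n := by
        rw [disjointed_add_one, hcm.partialSups_eq]
      rw [h4, ← h.add2 (hc n) (BooleanSubalgebra.sdiff_mem (hc _) (hc _))
        disjoint_sdiff_self_right, sup_sdiff_cancel_right (hcm (Nat.le_succ n))]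
  have h4 : Tendsto (fun n => f (c n)) atTop (𝓝 (f (a 0))) := by
    have := (tendsto_add_atTop_iff_nat 1).2 h2
    simpa only [h3] using this
  have h5 : ∀ n, f (a n) = f (a 0) - f (c n) := by
    intro n
    have := h.add2 (ha n) (hc n) disjoint_sdiff_self_right
    rw [show a n ⊔ c n = a 0 from sup_sdiff_cancel_right (hanti (Nat.zero_le n))] at this
    linarith
  have h7 : (fun n => f (a n)) = fun n => f (a 0) - f (c n) := funext h5
  have h6 := (tendsto_const_nhds (x := f (a 0))).sub h4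
  rw [sub_self] at h6
  rw [h7]
  exact h6

end MeasOn

/-! ### submeasures on subalgebras -/

/-- a strictly positive continuous submeasure on `S` -/
structure SubOn (S : BooleanSubalgebra B) (f : B → ℝ) : Prop where
  mono : ∀ a ∈ S, ∀ b ∈ S, a ≤ b → f a ≤ f b
  pos : ∀ a ∈ S, a ≠ ⊥ → 0 < f a
  csub : ∀ x : ℕ → B, (∀ n, x n ∈ S) → ∀ s : ℝ,
    (∀ n, ∑ k ∈ Finset.range n, f (x k) ≤ s) → f (⨆ n, x n) ≤ s
  cont : ∀ a : ℕ → B, (∀ n, a n ∈ S) → Antitone a → (⨅ n, a n) = ⊥ →
    Tendsto (fun n => f (a n)) atTop (𝓝 0)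

theorem MeasOn.subOn {S : BooleanSubalgebra B} {f : B → ℝ} (h : MeasOn S f) : SubOn S f :=
  ⟨fun _ ha _ hb hab => h.mono ha hb hab, h.pos, fun _ hx _ hs => h.csub hx hs,
    fun _ ha h1 h2 => h.cont ha h1 h2⟩

theorem IsContOuter.subOn {m : B → ℝ} (h : IsContOuter m) (S : BooleanSubalgebra B) :
    SubOn S m := by
  refine ⟨fun a _ b _ hab => h.mono a b hab, fun a _ ha => h.pos a ha, ?_, ?_⟩
  · intro x _ s hs
    have h1 : ∀ n, m (⨆ k, ⨆ (_ : k < n), x k) ≤ ∑ k ∈ Finset.range n, m (x k) := by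
      intro n
      induction n with
      | zero => simp [h.bot]
      | succ n ih =>
        rw [Finset.sum_range_succ, show (⨆ k, ⨆ (_ : k < n + 1), x k) =
          (⨆ k, ⨆ (_ : k < n), x k) ⊔ x n from Nat.iSup_lt_succ x n]
        exact (h.sup_le _ _).trans (by linarith)
    let z : ℕ → B := fun n => (⨆ k, x k) \ (⨆ k, ⨆ (_ : k < n), x k)
    have hz : Antitone z := by
      intro i j hij
      refine sdiff_le_sdiff_left ?_
      exact iSup_mono fun k => iSup_mono' fun hk => ⟨hk.trans_le hij, le_rfl⟩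
    have hz0 : IsGLB (Set.range z) ⊥ := by
      refine ⟨fun _ _ => bot_le, fun b hb => ?_⟩
      have h2 : ∀ n, b ≤ z n := fun n => hb ⟨n, rfl⟩
      have h3 : b ≤ ⨆ k, x k := (h2 0).trans sdiff_le
      have h4 : ∀ n, Disjoint b (x n) := by
        intro n
        have h5 : x n ≤ ⨆ k, ⨆ (_ : k < n + 1), x k := le_iSup₂ (f := fun k (_ : k < n + 1) => x k)
          n (Nat.lt_succ_self n)
        exact (disjoint_sdiff_self_left.mono (h2 (n + 1)) h5)
      have h5 : Disjoint b (⨆ n, x n) := disjoint_iSup_iff.2 h4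
      exact (h5.mono_right h3).le_bot.trans_eq rfl |> fun h => by simpa using h
    have h2 := h.cont z hz hz0
    have h3 : ∀ n, m (⨆ k, x k) ≤ s + m (z n) := by
      intro n
      have h4 : (⨆ k, x k) = (⨆ k, ⨆ (_ : k < n), x k) ⊔ z n := by
        refine (sup_sdiff_cancel_right ?_).symm
        exact iSup_mono fun k => iSup_le fun _ => le_rfl
      calc m (⨆ k, x k) = m ((⨆ k, ⨆ (_ : k < n), x k) ⊔ z n) := by rw [← h4]
        _ ≤ _ := h.sup_le _ _
        _ ≤ _ := by linarith [h1 n, hs n]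
    have h4 : Tendsto (fun n => s + m (z n)) atTop (𝓝 (s + 0)) := h2.const_add s
    rw [add_zero] at h4
    exact ge_of_tendsto' h4 h3
  · intro a _ hanti hinf
    refine h.cont a hanti ?_
    rw [← hinf]
    exact isGLB_iInf

/-- absolute continuity -/
theorem ac {S : BooleanSubalgebra B} (hS : IsCompleteSub S) {f g : B → ℝ} (hf : SubOn S f)
    (hg : SubOn S g) {ε : ℝ} (hε : 0 < ε) : ∃ δ > 0, ∀ b ∈ S, ε ≤ f b → δ ≤ g b := by
  by_contra hcon
  push Not at hcon
  have h1 : ∀ n : ℕ, ∃ b ∈ S, ε ≤ f b ∧ g b < (1 / 2) ^ n := fun n => hcon _ (by positivity)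
  choose b hbS hbf hbg using h1
  let c : ℕ → B := fun n => ⨆ k, b (k + n)
  have hc : ∀ n, c n ∈ S := fun n => iSup_mem hS fun k => hbS _
  have hanti : Antitone c := by
    intro i j hij
    refine iSup_le fun k => ?_
    have h2 := le_iSup (fun k => b (k + i)) (k + (j - i))
    have h3 : k + (j - i) + i = k + j := by omega
    simp only [h3] at h2
    exact h2
  have hcg : ∀ n, g (c n) ≤ 2 * (1 / 2) ^ n := by
    intro n
    refine hg.csub _ (fun k => hbS _) _ (fun N => ?_)
    calc ∑ k ∈ Finset.range N, g (b (k + n)) ≤ ∑ k ∈ Finset.range N, (1 / 2 : ℝ) ^ (k + n) :=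
          Finset.sum_le_sum fun k _ => (hbg _).le
      _ = (∑ k ∈ Finset.range N, (1 / 2 : ℝ) ^ k) * (1 / 2) ^ n := by
          rw [Finset.sum_mul]
          exact Finset.sum_congr rfl fun k _ => pow_add _ _ _
      _ ≤ 2 * (1 / 2) ^ n := by
          refine mul_le_mul_of_nonneg_right ?_ (by positivity)
          have h4 := sum_geometric_two_le N
          simpa using h4
  have hd : (⨅ n, c n) = ⊥ := by
    by_contra hne
    have h2 := hg.pos _ (iInf_mem hS hc) hne
    have h3 : ∀ n, g (⨅ n, c n) ≤ 2 * (1 / 2) ^ n := fun n =>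
      (hg.mono _ (iInf_mem hS hc) _ (hc n) (iInf_le c n)).trans (hcg n)
    have h4 : Tendsto (fun n : ℕ => 2 * (1 / 2 : ℝ) ^ n) atTop (𝓝 (2 * 0)) :=
      (tendsto_pow_atTop_nhds_zero_of_lt_one (by norm_num) (by norm_num)).const_mul 2
    have h5 := ge_of_tendsto' h4 h3
    linarith
  have h2 := hf.cont c hc hanti hd
  have h3 : ∀ n, ε ≤ f (c n) := fun n =>
    (hbf n).trans (hf.mono _ (hbS n) _ (hc n) (by
      have := le_iSup (fun k => b (k + n)) 0
      simpa using this))
  have h4 := ge_of_tendsto' h2 h3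
  linarith

/-! ### uniform constraints -/

/-- the constraint number `c` with value `k` -/
def Q (m : B → ℝ) (c k : ℕ) (S : BooleanSubalgebra B) (f : B → ℝ) : Prop :=
  ∀ b ∈ S, (m b < 1 / ((k : ℝ) + 1) → f b ≤ 1 / ((c : ℝ) + 1)) ∧
    (1 / ((c : ℝ) + 1) ≤ m b → 1 / ((k : ℝ) + 1) ≤ f b)

theorem Q.mono_sub {m : B → ℝ} {c k : ℕ} {S S' : BooleanSubalgebra B} {f : B → ℝ}
    (h : Q m c k S f) (hle : S' ≤ S) : Q m c k S' f := fun b hb => h b (hle hb)

theorem exists_Q {m : B → ℝ} (hm : IsContOuter m) (c : ℕ) {S : BooleanSubalgebra B}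
    (hS : IsCompleteSub S) {f : B → ℝ} (hf : MeasOn S f) : ∃ k, Q m c k S f := by
  obtain ⟨δ1, hδ1, h1⟩ := ac hS hf.subOn (hm.subOn S) (ε := 1 / ((c : ℝ) + 1)) (by positivity)
  obtain ⟨δ2, hδ2, h2⟩ := ac hS (hm.subOn S) hf.subOn (ε := 1 / ((c : ℝ) + 1)) (by positivity)
  obtain ⟨k, hk⟩ := exists_nat_one_div_lt (lt_min hδ1 hδ2)
  have hk1 := hk.le.trans (min_le_left _ _)
  have hk2 := hk.le.trans (min_le_right _ _)
  refine ⟨k, fun b hb => ⟨fun h => ?_, fun h => hk2.trans (h2 b hb h)⟩⟩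
  by_contra hcon
  push Not at hcon
  have := h1 b hb hcon.le
  linarith

/-- normalized measures satisfying the first `n` constraints exist on all countably generated
complete subalgebras -/
def Good (m : B → ℝ) (n : ℕ) (K : ℕ → ℕ) : Prop :=
  ∀ S : BooleanSubalgebra B, CountablyGenerated S →
    ∃ f : B → ℝ, MeasOn S f ∧ f ⊤ = 1 ∧ ∀ c < n, Q m c (K c) S f

theorem Good.step {m : B → ℝ} (hm : IsContOuter m) {n : ℕ} {K : ℕ → ℕ} (h : Good m n K) :
    ∃ k, Good m (n + 1) (Function.update K n k) := by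
  by_contra hcon
  push Not at hcon
  have h1 : ∀ k, ∃ S : BooleanSubalgebra B, CountablyGenerated S ∧ ∀ f : B → ℝ, MeasOn S f →
      f ⊤ = 1 → ¬ ∀ c < n + 1, Q m c (Function.update K n k c) S f := by
    intro k
    have h2 := hcon k
    unfold Good at h2
    push Not at h2
    obtain ⟨S, hS, h3⟩ := h2
    refine ⟨S, hS, fun f hf hf1 h4 => ?_⟩
    obtain ⟨c, hc, h5⟩ := h3 f hf hf1
    exact h5 (h4 c hc)
  choose S hS hno using h1
  choose hScomp C hCc hCS hCmin using hS
  have hgen : CountablyGenerated (gen (⋃ k, C k)) := gen_cg (Set.countable_iUnion hCc)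
  obtain ⟨f, hf, hf1, hfQ⟩ := h _ hgen
  obtain ⟨k, hk⟩ := exists_Q hm n hgen.1 hf
  have hle : S k ≤ gen (⋃ k, C k) :=
    hCmin k _ (gen_complete _) ((Set.subset_iUnion C k).trans (subset_gen _))
  refine hno k f (hf.mono_sub hle) hf1 ?_
  intro c hc
  by_cases hcn : c = n
  · subst hcn
    rw [Function.update_self]
    exact hk.mono_sub hle
  · rw [Function.update_of_ne hcn]
    exact (hfQ c (by omega)).mono_sub hle

theorem exists_K {m : B → ℝ} (hm : IsContOuter m) (h0 : Good m 0 (fun _ => 0)) :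
    ∃ K : ℕ → ℕ, ∀ n, Good m n K := by
  classical
  choose k hk using fun (n : ℕ) (K : {K : ℕ → ℕ // Good m n K}) => Good.step hm K.2
  let F : (n : ℕ) → {K : ℕ → ℕ // Good m n K} := fun n =>
    Nat.rec (motive := fun n => {K : ℕ → ℕ // Good m n K}) ⟨_, h0⟩
      (fun n K => ⟨Function.update K.1 n (k n K), hk n K⟩) n
  have hF : ∀ n, (F (n + 1)).1 = Function.update (F n).1 n (k n (F n)) := fun n => rfl
  have hstab : ∀ c n, c < n → (F n).1 c = (F (c + 1)).1 c := by
    intro c n hcn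
    induction n, hcn using Nat.le_induction with
    | base => rfl
    | succ n hn ih =>
      rw [hF, Function.update_of_ne (by omega), ih]
  refine ⟨fun c => (F (c + 1)).1 c, fun n S hS => ?_⟩
  obtain ⟨f, hf, hf1, hfQ⟩ := (F n).2 S hS
  refine ⟨f, hf, hf1, fun c hc => ?_⟩
  have h1 := hfQ c hc
  rw [hstab c n hc] at h1
  exact h1

/-- **Main theorem.** -/
theorem main (hsub : ∀ S : BooleanSubalgebra B, CountablyGenerated S → ∃ μ : S → ℝ, IsMeasure μ)
    (m : B → ℝ) (hm : IsContOuter m) : ∃ μ : B → ℝ, IsMeasure μ := by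
  classical
  by_cases htriv : (⊤ : B) = ⊥
  · refine ⟨fun _ => 0, fun _ => le_rfl, fun a ha => absurd ?_ ha, fun _ _ _ _ => hasSum_zero⟩
    exact le_bot_iff.1 (le_top.trans_eq htriv)
  have h0 : Good m 0 (fun _ => 0) := by
    intro S hS
    obtain ⟨μ, hμ⟩ := hsub S hS
    have h1 := measOn_of_isMeasure hS.1 hμ
    set f : B → ℝ := fun b => if hb : b ∈ S then μ ⟨b, hb⟩ else 0 with hf
    have h2 : 0 < f ⊤ := h1.pos _ BooleanSubalgebra.top_mem htriv
    refine ⟨fun b => f b / f ⊤, ⟨fun a ha => div_nonneg (h1.nonneg a ha) h2.le,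
      fun a ha hne => div_pos (h1.pos a ha hne) h2, fun a ha hd => (h1.add a ha hd).div_const _⟩,
      div_self h2.ne', fun c hc => absurd hc (Nat.not_lt_zero c)⟩
  obtain ⟨K, hK⟩ := exists_K hm h0
  have hex : ∀ i : Finset B × ℕ, ∃ f : B → ℝ, MeasOn (gen (i.1 : Set B)) f ∧ f ⊤ = 1 ∧
      ∀ c < i.2, Q m c (K c) (gen (i.1 : Set B)) f := fun i =>
    hK i.2 _ (gen_cg i.1.countable_toSet)
  choose f hf hf1 hfQ using hex
  let U : Ultrafilter (Finset B × ℕ) := Ultrafilter.of atTop
  have hU : (U : Filter (Finset B × ℕ)) ≤ atTop := Ultrafilter.of_le atTop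
  have hmem : ∀ b : B, ∀ᶠ i in (U : Filter (Finset B × ℕ)), b ∈ gen (i.1 : Set B) := by
    intro b
    have h1 : ∀ᶠ i : Finset B × ℕ in atTop, ({b}, 0) ≤ i := eventually_ge_atTop _
    refine hU (h1.mono fun i hi => ?_)
    apply subset_gen
    have h2 := hi.1
    exact h2 (Finset.mem_singleton_self b)
  have hnum : ∀ c : ℕ, ∀ᶠ i in (U : Filter (Finset B × ℕ)), c < i.2 := by
    intro c
    have h1 : ∀ᶠ i : Finset B × ℕ in atTop, (∅, c + 1) ≤ i := eventually_ge_atTop _
    exact hU (h1.mono fun i hi => hi.2)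
  have hIcc : ∀ b : B, ∀ᶠ i in (U : Filter (Finset B × ℕ)), f i b ∈ Set.Icc (0 : ℝ) 1 := by
    intro b
    refine (hmem b).mono fun i hi => ⟨(hf i).nonneg b hi, ?_⟩
    rw [← hf1 i]
    exact (hf i).mono hi BooleanSubalgebra.top_mem le_top
  have hlim : ∀ b : B, ∃ l : ℝ, Tendsto (fun i => f i b) U (𝓝 l) := by
    intro b
    have h1 : ((U.map (fun i => f i b) : Ultrafilter ℝ) : Filter ℝ) ≤ 𝓟 (Set.Icc (0 : ℝ) 1) := by
      rw [le_principal_iff]
      exact hIcc b
    obtain ⟨l, _, hl⟩ := isCompact_Icc.ultrafilter_le_nhds _ h1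
    exact ⟨l, hl⟩
  choose μ hμ using hlim
  have hnn : ∀ b, 0 ≤ μ b := fun b =>
    ge_of_tendsto (hμ b) ((hIcc b).mono fun i hi => hi.1)
  have hadd : ∀ a b, Disjoint a b → μ (a ⊔ b) = μ a + μ b := by
    intro a b hab
    refine tendsto_nhds_unique (hμ (a ⊔ b)) ?_
    refine ((hμ a).add (hμ b)).congr' ?_
    filter_upwards [hmem a, hmem b] with i h1 h2
    exact ((hf i).add2 h1 h2 hab).symm
  have hA : ∀ (c : ℕ) (b : B), m b < 1 / ((K c : ℝ) + 1) → μ b ≤ 1 / ((c : ℝ) + 1) := by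
    intro c b hb
    refine le_of_tendsto (hμ b) ?_
    filter_upwards [hmem b, hnum c] with i h1 h2
    exact (hfQ i c h2 b h1).1 hb
  have hB : ∀ (c : ℕ) (b : B), 1 / ((c : ℝ) + 1) ≤ m b → 1 / ((K c : ℝ) + 1) ≤ μ b := by
    intro c b hb
    refine ge_of_tendsto (hμ b) ?_
    filter_upwards [hmem b, hnum c] with i h1 h2
    exact (hfQ i c h2 b h1).2 hb
  have hmono : ∀ a b, a ≤ b → μ a ≤ μ b := by
    intro a b hab
    have h1 := hadd a (b \ a) disjoint_sdiff_self_right
    rw [sup_sdiff_cancel_right hab] at h1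
    linarith [hnn (b \ a)]
  have hbot : μ ⊥ = 0 := by
    have h1 := hadd ⊥ ⊥ disjoint_bot_left
    rw [sup_bot_eq] at h1
    linarith
  refine ⟨μ, hnn, ?_, ?_⟩
  · intro a ha
    have h1 := hm.pos a ha
    obtain ⟨c, hc⟩ := exists_nat_one_div_lt h1
    have h2 := hB c a hc.le
    exact lt_of_lt_of_le (by positivity) h2
  · intro a b hd hlub
    have hfin : ∀ n, ∑ k ∈ Finset.range n, μ (a k) = μ (⨆ k, ⨆ (_ : k < n), a k) := by
      intro n
      induction n with
      | zero => simp [hbot]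
      | succ n ih =>
        rw [Finset.sum_range_succ, ih, show (⨆ k, ⨆ (_ : k < n + 1), a k) =
          (⨆ k, ⨆ (_ : k < n), a k) ⊔ a n from Nat.iSup_lt_succ a n]
        refine (hadd _ _ ?_).symm
        refine disjoint_iff.2 (le_bot_iff.1 ?_)
        rw [iSup_inf_eq]
        refine iSup_le fun k => ?_
        rw [iSup_inf_eq]
        exact iSup_le fun hk => (hd k n (by omega)).le_bot
    have hb : b = ⨆ k, a k := hlub.unique isLUB_iSup
    subst hb
    let z : ℕ → B := fun n => (⨆ k, a k) \ (⨆ k, ⨆ (_ : k < n), a k)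
    have hz : Antitone z := by
      intro i j hij
      refine sdiff_le_sdiff_left ?_
      exact iSup_mono fun k => iSup_mono' fun hk => ⟨hk.trans_le hij, le_rfl⟩
    have hz0 : IsGLB (Set.range z) ⊥ := by
      refine ⟨fun _ _ => bot_le, fun b hb => ?_⟩
      have h2 : ∀ n, b ≤ z n := fun n => hb ⟨n, rfl⟩
      have h3 : b ≤ ⨆ k, a k := (h2 0).trans sdiff_le
      have h4 : ∀ n, Disjoint b (a n) := by
        intro n
        have h5 : a n ≤ ⨆ k, ⨆ (_ : k < n + 1), a k := le_iSup₂ (f := fun k (_ : k < n + 1) => a k)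
          n (Nat.lt_succ_self n)
        exact (disjoint_sdiff_self_left.mono (h2 (n + 1)) h5)
      have h5 : Disjoint b (⨆ n, a n) := disjoint_iSup_iff.2 h4
      exact (h5.mono_right h3).le_bot.trans_eq rfl |> fun h => by simpa using h
    have h1 := hm.cont z hz hz0
    have h2 : Tendsto (fun n => μ (z n)) atTop (𝓝 0) := by
      rw [Metric.tendsto_atTop]
      intro ε hε
      obtain ⟨c, hc⟩ := exists_nat_one_div_lt hε
      have h3 : ∀ᶠ n in atTop, m (z n) < 1 / ((K c : ℝ) + 1) :=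
        h1.eventually (gt_mem_nhds (by positivity))
      obtain ⟨N, hN⟩ := eventually_atTop.1 h3
      refine ⟨N, fun n hn => ?_⟩
      rw [Real.dist_eq, sub_zero, abs_of_nonneg (hnn _)]
      exact (hA c _ (hN n hn)).trans_lt hc
    have h3 : ∀ n, ∑ k ∈ Finset.range n, μ (a k) = μ (⨆ k, a k) - μ (z n) := by
      intro n
      have h4 : (⨆ k, a k) = (⨆ k, ⨆ (_ : k < n), a k) ⊔ z n := by
        refine (sup_sdiff_cancel_right ?_).symm
        exact iSup_mono fun k => iSup_le fun _ => le_rfl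
      have h5 : μ (⨆ k, a k) = μ (⨆ k, ⨆ (_ : k < n), a k) + μ (z n) := by
        conv_lhs => rw [h4]
        exact hadd _ _ disjoint_sdiff_self_right
      rw [hfin]
      linarith
    rw [hasSum_iff_tendsto_nat_of_nonneg (fun k => hnn _)]
    simp only [h3]
    have h4 := (tendsto_const_nhds (x := μ (⨆ k, a k))).sub h2
    simpa using h4

end Pool.Agent.T6helper6.MB
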